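import Pool.Agent.H66.PwLSpace

/-!
# Hausdorff spaces with small `pwL * χ` carry no nonprincipal complete ultrafilters
-/

open Cardinal Filter Topology

namespace Pool.Agent.H66

universe u

theorem PwLProp.mono {X : Type u} [TopologicalSpace X] {κ μ : Cardinal.{u}} (h : PwLProp X κ)
    (hκμ : κ ≤ μ) : PwLProp X μ := by
  intro 𝒰 h𝒰 hcov I D hD
  obtain ⟨V, h1, h2, h3⟩ := h 𝒰 h𝒰 hcov I D hD
  exact ⟨V, h1, fun i => (h2 i).trans hκμ, h3⟩

theorem pwL_nonempty (X : Type u) [TopologicalSpace X] :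
    Set.Nonempty {κ : Cardinal.{u} | ℵ₀ ≤ κ ∧ PwLProp X κ} := by
  refine ⟨max ℵ₀ #(Set X), le_max_left _ _, ?_⟩
  intro 𝒰 h𝒰 hcov I D hD
  refine ⟨D, fun i => subset_rfl, fun i =>
    (Cardinal.mk_set_le _).trans (le_max_right _ _), ?_⟩
  rw [Set.eq_univ_iff_forall]
  intro x
  have hx : x ∈ ⋃₀ 𝒰 := hcov ▸ Set.mem_univ x
  obtain ⟨U, hU, hxU⟩ := hx
  have : U ∈ ⋃ i, D i := hD ▸ hU
  obtain ⟨i, hi⟩ := Set.mem_iUnion.1 this
  exact Set.mem_iUnion.2 ⟨i, subset_closure ⟨U, hi, hxU⟩⟩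

theorem pwLProp_pwL (X : Type u) [TopologicalSpace X] : PwLProp X (pwL X) :=
  (csInf_mem (pwL_nonempty X)).2

theorem exists_base {X : Type u} [TopologicalSpace X] (x : X) :
    ∃ B : Set (Set X), (∀ U ∈ B, IsOpen U ∧ x ∈ U) ∧
      (∀ W : Set X, IsOpen W → x ∈ W → ∃ U ∈ B, U ⊆ W) ∧ #B = charAt x := by
  have hne : Set.Nonempty {κ : Cardinal.{u} | ∃ B : Set (Set X), (∀ U ∈ B, IsOpen U ∧ x ∈ U) ∧
      (∀ W : Set X, IsOpen W → x ∈ W → ∃ U ∈ B, U ⊆ W) ∧ #B = κ} :=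
    ⟨_, {W | IsOpen W ∧ x ∈ W}, fun U hU => hU, fun W hW hx => ⟨W, ⟨hW, hx⟩, subset_rfl⟩, rfl⟩
  exact csInf_mem hne

theorem charAt_le_character {X : Type u} [TopologicalSpace X] (x : X) :
    charAt x ≤ character X :=
  (le_ciSup (f := fun x : X => charAt x) Cardinal.bddAbove_of_small x).trans (le_max_right _ _)

/-- A Hausdorff space with `pwL` and character at most `κ` carries no nonprincipal `κ⁺`-complete
ultrafilter. -/
theorem NM.of_pwL {X : Type u} [TopologicalSpace X] [T2Space X] {κ : Cardinal.{u}}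
    (hκ : ℵ₀ ≤ κ) (h1 : PwLProp X κ) (h2 : ∀ x : X, charAt x ≤ κ) : NM κ X := by
  classical
  intro U hU
  by_contra hcon
  push Not at hcon
  obtain ⟨K, hcard⟩ : ∃ K : Type u, #K = κ := ⟨κ.out, Cardinal.mk_out κ⟩
  -- local bases indexed by a fixed type
  have hbase : ∀ x : X, ∃ b : K → Set X, (∀ k, IsOpen (b k) ∧ x ∈ b k) ∧
      ∀ W : Set X, IsOpen W → x ∈ W → ∃ k, b k ⊆ W := by
    intro x
    obtain ⟨B, hB1, hB2, hB3⟩ := exists_base x
    obtain ⟨U₀, hU₀, _⟩ := hB2 Set.univ isOpen_univ (Set.mem_univ x)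
    have hle : #B ≤ #K := by rw [hB3, hcard]; exact h2 x
    obtain ⟨e⟩ := Cardinal.le_def _ _ |>.1 hle
    have : Nonempty B := ⟨⟨U₀, hU₀⟩⟩
    refine ⟨fun k => (Function.invFun e k).1, fun k => hB1 _ (Function.invFun e k).2, ?_⟩
    intro W hW hx
    obtain ⟨V, hV, hVW⟩ := hB2 W hW hx
    refine ⟨e ⟨V, hV⟩, ?_⟩
    show (Function.invFun e (e ⟨V, hV⟩)).1 ⊆ W
    rw [Function.leftInverse_invFun e.injective]
    exact hVW
  choose b hb1 hb2 using hbase
  have hsep : ∀ a z : X, ∃ p : K × K, z ≠ a → Disjoint (b z p.1) (b a p.2) := by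
    intro a z
    by_cases hza : z = a
    · obtain ⟨k, _⟩ := hb2 z Set.univ isOpen_univ (Set.mem_univ z)
      exact ⟨(k, k), fun h => absurd hza h⟩
    · obtain ⟨S, T, hS, hT, hzS, haT, hST⟩ := t2_separation hza
      obtain ⟨i, hi⟩ := hb2 z S hS hzS
      obtain ⟨j, hj⟩ := hb2 a T hT haT
      exact ⟨(i, j), fun _ => Set.disjoint_of_subset hi hj hST⟩
  choose p hp using hsep
  have hKK : #(K × K) ≤ κ := by
    rw [Cardinal.mk_prod, Cardinal.lift_id, hcard, Cardinal.mul_eq_self hκ]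
  choose q hq using fun a => exists_fiber U hU hKK (p a)
  have hmem : ∀ a, {z : X | Disjoint (b z (q a).1) (b a (q a).2)} ∈ (U : Filter X) := by
    intro a
    have h0 : ({a} : Set X)ᶜ ∈ (U : Filter X) := Ultrafilter.compl_mem_iff_notMem.2 (hcon a)
    refine Filter.mem_of_superset (Filter.inter_mem h0 (hq a)) ?_
    rintro z ⟨hz1, hz2⟩
    have e1 : z ≠ a := hz1
    have e2 : p a z = q a := hz2
    have := hp a z e1
    rw [e2] at this
    exact this
  -- the cover and its decomposition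
  let D : K → Set (Set X) := fun k => {W | ∃ a, (q a).1 = k ∧ W = b a (q a).2}
  obtain ⟨V, hV1, hV2, hV3⟩ := h1 (⋃ k, D k)
    (by
      intro W hW
      obtain ⟨k, a, _, rfl⟩ := Set.mem_iUnion.1 hW
      exact (hb1 a _).1)
    (by
      rw [Set.eq_univ_iff_forall]
      intro a
      exact ⟨b a (q a).2, Set.mem_iUnion.2 ⟨(q a).1, a, rfl, rfl⟩, (hb1 a _).2⟩)
    K D rfl
  have hsel : ∀ k, ∀ W : V k, ∃ a, (q a).1 = k ∧ W.1 = b a (q a).2 := fun k W => hV1 k W.2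
  choose s hs1 hs2 using hsel
  have hall : (⋂ k, ⋂ W : V k, {z : X | Disjoint (b z k) W.1}) ∈ (U : Filter X) := by
    refine (cardinal_iInter_mem (Order.lt_succ_of_le hcard.le)).2 fun k => ?_
    refine (cardinal_iInter_mem (Order.lt_succ_of_le (hV2 k))).2 fun W => ?_
    have := hmem (s k W)
    rw [hs1 k W, ← hs2 k W] at this
    exact this
  obtain ⟨z, hz⟩ := U.nonempty_of_mem hall
  have hzV : z ∈ ⋃ k, closure (⋃₀ V k) := hV3 ▸ Set.mem_univ z
  obtain ⟨k, hk⟩ := Set.mem_iUnion.1 hzV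
  obtain ⟨w, hw1, W, hW, hwW⟩ := mem_closure_iff.1 hk (b z k) (hb1 z k).1 (hb1 z k).2
  have hd : Disjoint (b z k) W := by
    have := Set.mem_iInter.1 (Set.mem_iInter.1 hz k) ⟨W, hW⟩
    exact this
  exact Set.disjoint_left.1 hd hw1 hwW

theorem eq_pure_iff {Λ : Type u} (U : Ultrafilter Λ) (a : Λ) : U = pure a ↔ {a} ∈ U := by
  constructor
  · rintro rfl
    exact rfl
  · intro h
    have : (U : Filter Λ) ≤ ((pure a : Ultrafilter Λ) : Filter Λ) := by
      rw [Ultrafilter.coe_pure]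
      exact Filter.le_pure_iff.2 h
    exact Ultrafilter.coe_le_coe.1 this

end Pool.Agent.H66
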