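import Mathlib

/-!
# Cardinal functions used for MP_8b81fd_gt

`PwLProp X κ` is the property in the definition of the piecewise weak Lindelof number, `pwL X` the
piecewise weak Lindelof number, `charAt x` the character at a point, `character X` the character.
All cardinal functions take infinite values, as in the problem file.
-/

open Cardinal Set

namespace Pool.Agent.H66

universe u

/-- The property defining `pwL(X) ≤ κ`: for every open cover `𝒰` of `X` and every decomposition
`𝒰 = ⋃ i, D i` (with an arbitrary index set `I`) there are subfamilies `V i ⊆ D i` of size at most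
`κ` such that `X = ⋃ i, closure (⋃ (V i))`. -/
def PwLProp (X : Type u) [TopologicalSpace X] (κ : Cardinal.{u}) : Prop :=
  ∀ 𝒰 : Set (Set X), (∀ U ∈ 𝒰, IsOpen U) → ⋃₀ 𝒰 = Set.univ →
    ∀ (I : Type u) (D : I → Set (Set X)), (⋃ i, D i) = 𝒰 →
      ∃ V : I → Set (Set X), (∀ i, V i ⊆ D i) ∧ (∀ i, #(V i) ≤ κ) ∧
        (⋃ i, closure (⋃₀ V i)) = Set.univ

/-- The piecewise weak Lindelof number `pwL(X)`: the least infinite cardinal `κ` with
`PwLProp X κ`. -/
noncomputable def pwL (X : Type u) [TopologicalSpace X] : Cardinal.{u} :=
  sInf {κ | ℵ₀ ≤ κ ∧ PwLProp X κ}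

/-- The character of `X` at the point `x`: the least cardinality of a local base at `x`, a local
base being a family of open sets containing `x` such that every open set containing `x` contains
a member of the family. -/
noncomputable def charAt {X : Type u} [TopologicalSpace X] (x : X) : Cardinal.{u} :=
  sInf {κ | ∃ B : Set (Set X), (∀ U ∈ B, IsOpen U ∧ x ∈ U) ∧
    (∀ W : Set X, IsOpen W → x ∈ W → ∃ U ∈ B, U ⊆ W) ∧ #B = κ}

/-- The character `χ(X)`: the supremum of the characters at the points (replaced by `ℵ₀` when it
is finite). -/
noncomputable def character (X : Type u) [TopologicalSpace X] : Cardinal.{u} :=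
  max ℵ₀ (⨆ x : X, charAt x)

end Pool.Agent.H66
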