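import Pool.Agent.H66.PwLDefs

/-!
# A first countable Hausdorff almost Lindelof space over every non-measurable set
-/

open Cardinal Filter Topology

namespace Pool.Agent.H66

universe u

/-! ### Sets without nonprincipal complete ultrafilters -/

/-- Every `κ⁺`-complete ultrafilter on `Λ` is principal. -/
def NM (κ : Cardinal.{u}) (Λ : Type u) : Prop :=
  ∀ U : Ultrafilter Λ, CardinalInterFilter (U : Filter Λ) (Order.succ κ) → ∃ a, {a} ∈ U

theorem exists_fiber {κ : Cardinal.{u}} {A I : Type u} (U : Ultrafilter A)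
    (hU : CardinalInterFilter (U : Filter A) (Order.succ κ)) (hI : #I ≤ κ) (g : A → I) :
    ∃ i, g ⁻¹' {i} ∈ U := by
  by_contra hcon
  push Not at hcon
  have h1 : ∀ i, (g ⁻¹' {i})ᶜ ∈ (U : Filter A) := fun i =>
    Ultrafilter.compl_mem_iff_notMem.2 (hcon i)
  have h2 : (⋂ i, (g ⁻¹' {i})ᶜ) ∈ (U : Filter A) :=
    (cardinal_iInter_mem (Order.lt_succ_of_le hI)).2 h1
  have h3 : (⋂ i, (g ⁻¹' {i})ᶜ) = (∅ : Set A) := by
    ext a
    simp
  rw [h3] at h2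
  exact U.empty_notMem h2

theorem exists_fiber_nat {κ : Cardinal.{u}} {A : Type u} (hκ : ℵ₀ ≤ κ) (U : Ultrafilter A)
    (hU : CardinalInterFilter (U : Filter A) (Order.succ κ)) (g : A → ℕ) :
    ∃ i, g ⁻¹' {i} ∈ U := by
  obtain ⟨i, hi⟩ := exists_fiber (I := ULift.{u} ℕ) U hU (by simpa using hκ)
    (fun a => ULift.up (g a))
  refine ⟨i.down, ?_⟩
  convert hi using 1
  ext a
  simp [ULift.ext_iff]

theorem NM.of_card_le {κ : Cardinal.{u}} {Λ : Type u} (h : #Λ ≤ κ) : NM κ Λ := by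
  intro U hU
  obtain ⟨i, hi⟩ := exists_fiber U hU h id
  exact ⟨i, by simpa using hi⟩

theorem map_complete {κ : Cardinal.{u}} {A B : Type u} (U : Ultrafilter A)
    (hU : CardinalInterFilter (U : Filter A) (Order.succ κ)) (g : A → B) :
    CardinalInterFilter ((U.map g : Ultrafilter B) : Filter B) (Order.succ κ) := by
  constructor
  intro S hS hmem
  show g ⁻¹' (⋂₀ S) ∈ (U : Filter A)
  rw [Set.preimage_sInter]
  exact (cardinal_bInter_mem hS).2 fun s hs => hmem s hs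

theorem NM.of_injective {κ : Cardinal.{u}} {A B : Type u} (h : NM κ B) (f : A → B)
    (hf : Function.Injective f) : NM κ A := by
  intro U hU
  obtain ⟨b, hb⟩ := h (U.map f) (map_complete U hU f)
  have hb' : f ⁻¹' {b} ∈ U := hb
  obtain ⟨a, ha⟩ := U.nonempty_of_mem hb'
  refine ⟨a, ?_⟩
  refine Filter.mem_of_superset hb' ?_
  intro a' ha'
  have e1 : f a = b := ha
  have e2 : f a' = b := ha'
  exact hf (e2.trans e1.symm)

theorem NM.prod {κ : Cardinal.{u}} {A B : Type u} (hA : NM κ A) (hB : NM κ B) :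
    NM κ (A × B) := by
  intro U hU
  obtain ⟨a, ha⟩ := hA (U.map Prod.fst) (map_complete U hU _)
  obtain ⟨b, hb⟩ := hB (U.map Prod.snd) (map_complete U hU _)
  have ha' : Prod.fst ⁻¹' {a} ∈ (U : Filter (A × B)) := ha
  have hb' : Prod.snd ⁻¹' {b} ∈ (U : Filter (A × B)) := hb
  refine ⟨(a, b), Filter.mem_of_superset (Filter.inter_mem ha' hb') ?_⟩
  rintro ⟨x, y⟩ ⟨hx, hy⟩
  have e1 : x = a := hx
  have e2 : y = b := hy
  show (x, y) = (a, b)
  rw [e1, e2]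

theorem NM.fun {κ : Cardinal.{u}} {P : Type u} (hκ : ℵ₀ ≤ κ) (hP : NM κ P) :
    NM κ (P → ℕ) := by
  classical
  intro U hU
  choose φ hφ using fun z : P => exists_fiber_nat hκ U hU (fun f : P → ℕ => f z)
  by_contra hcon
  push Not at hcon
  have h0 : ({φ} : Set (P → ℕ))ᶜ ∈ (U : Filter (P → ℕ)) :=
    Ultrafilter.compl_mem_iff_notMem.2 (hcon φ)
  have hne : ∃ f : P → ℕ, f ≠ φ := by
    obtain ⟨f, hf⟩ := U.nonempty_of_mem h0
    exact ⟨f, hf⟩
  obtain ⟨f₀, hf₀⟩ := hne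
  have hex : ∀ f : P → ℕ, ∃ z, f ≠ φ → f z ≠ φ z := by
    intro f
    by_cases h : f = φ
    · obtain ⟨z, _⟩ := Function.ne_iff.1 hf₀
      exact ⟨z, fun h' => absurd h h'⟩
    · obtain ⟨z, hz⟩ := Function.ne_iff.1 h
      exact ⟨z, fun _ => hz⟩
  choose ζ hζ using hex
  obtain ⟨z, hz⟩ := hP (U.map ζ) (map_complete U hU ζ)
  have hz' : ζ ⁻¹' {z} ∈ (U : Filter (P → ℕ)) := hz
  have h3 := Filter.inter_mem (Filter.inter_mem h0 hz') (hφ z)
  obtain ⟨f, ⟨hf1, hf2⟩, hf3⟩ := U.nonempty_of_mem h3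
  have e1 : f ≠ φ := hf1
  have e2 : ζ f = z := hf2
  have e3 : f z = φ z := hf3
  have := hζ f e1
  rw [e2] at this
  exact this e3

/-- The covering property of the family of all partitions into countably many pieces. -/
theorem key {κ : Cardinal.{u}} {P : Type u} (hκ : ℵ₀ ≤ κ) (hP : NM κ P)
    (G : (P → ℕ) → ℕ) :
    ∃ F : Set (P → ℕ), #F ≤ κ ∧ #{z : P | ∀ f ∈ F, f z ≤ G f} ≤ κ := by
  classical
  by_contra hcon
  push Not at hcon
  -- the ideal
  let Null : Set P → Prop := fun S =>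
    ∃ F : Set (P → ℕ), #F ≤ κ ∧ #({z : P | z ∈ S ∧ ∀ f ∈ F, f z ≤ G f} : Set P) ≤ κ
  have null_mono : ∀ S T : Set P, S ⊆ T → Null T → Null S := by
    rintro S T hST ⟨F, hF, hF2⟩
    refine ⟨F, hF, (Cardinal.mk_le_mk_of_subset ?_).trans hF2⟩
    rintro z ⟨hz, hz2⟩
    exact ⟨hST hz, hz2⟩
  have null_iUnion : ∀ (I : Type u) (S : I → Set P), #I ≤ κ → (∀ i, Null (S i)) →
      Null (⋃ i, S i) := by
    intro I S hI h
    choose F hF1 hF2 using h
    refine ⟨⋃ i, F i, ?_, ?_⟩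
    · refine (Cardinal.mk_iUnion_le _).trans ?_
      calc #I * ⨆ i, #(F i) ≤ κ * κ := mul_le_mul' hI (ciSup_le' hF1)
        _ = κ := Cardinal.mul_eq_self hκ
    · have hsub : {z : P | z ∈ ⋃ i, S i ∧ ∀ f ∈ ⋃ i, F i, f z ≤ G f} ⊆
          ⋃ i, {z : P | z ∈ S i ∧ ∀ f ∈ F i, f z ≤ G f} := by
        rintro z ⟨hz, hz2⟩
        obtain ⟨i, hi⟩ := Set.mem_iUnion.1 hz
        exact Set.mem_iUnion.2 ⟨i, hi, fun f hf => hz2 f (Set.mem_iUnion.2 ⟨i, hf⟩)⟩
      refine (Cardinal.mk_le_mk_of_subset hsub).trans ((Cardinal.mk_iUnion_le _).trans ?_)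
      calc #I * ⨆ i, #({z : P | z ∈ S i ∧ ∀ f ∈ F i, f z ≤ G f} : Set P) ≤ κ * κ :=
            mul_le_mul' hI (ciSup_le' hF2)
        _ = κ := Cardinal.mul_eq_self hκ
  have null_union : ∀ S T : Set P, Null S → Null T → Null (S ∪ T) := by
    intro S T hS hT
    have := null_iUnion (ULift.{u} Bool) (fun b => if b.down then S else T)
      ((Cardinal.mk_le_aleph0).trans hκ) (by rintro ⟨b⟩; cases b <;> simpa)
    refine null_mono _ _ ?_ this
    rintro z (hz | hz)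
    · exact Set.mem_iUnion.2 ⟨⟨true⟩, by simpa using hz⟩
    · exact Set.mem_iUnion.2 ⟨⟨false⟩, by simpa using hz⟩
  have null_small : ∀ S : Set P, #S ≤ κ → Null S := by
    intro S hS
    refine ⟨∅, by simp, (Cardinal.mk_le_mk_of_subset ?_).trans hS⟩
    rintro z ⟨hz, _⟩
    exact hz
  have null_gt : ∀ f : P → ℕ, Null {z | G f < f z} := by
    intro f
    refine ⟨{f}, ?_, ?_⟩
    · rw [Cardinal.mk_singleton]
      exact (Cardinal.one_le_aleph0).trans hκ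
    · have : ({z : P | z ∈ {z | G f < f z} ∧ ∀ g ∈ ({f} : Set (P → ℕ)), g z ≤ G g} : Set P) = ∅ := by
        ext z
        simp
      rw [this]
      simp
  have univ_pos : ¬ Null Set.univ := by
    rintro ⟨F, hF, hF2⟩
    refine absurd hF2 (not_le.2 ?_)
    simpa using hcon F hF
  -- there is an atom
  have atom : ∃ S : Set P, ¬ Null S ∧ ∀ T, T ⊆ S → Null T ∨ Null (S \ T) := by
    by_contra hna
    push Not at hna
    have split : ∀ S : {S : Set P // ¬ Null S}, ∃ T : {S : Set P // ¬ Null S},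
        T.1 ⊆ S.1 ∧ ¬ Null (S.1 \ T.1) := by
      rintro ⟨S, hS⟩
      obtain ⟨T, hT, hT2, hT3⟩ := hna S hS
      exact ⟨⟨T, hT2⟩, hT, hT3⟩
    choose nxt hn1 hn2 using split
    let T : ℕ → {S : Set P // ¬ Null S} := fun n =>
      Nat.rec ⟨Set.univ, univ_pos⟩ (fun _ S => nxt S) n
    have hT : ∀ n, T (n + 1) = nxt (T n) := fun n => rfl
    have hanti : ∀ n m, n ≤ m → (T m).1 ⊆ (T n).1 := by
      intro n m h
      induction m, h using Nat.le_induction with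
      | base => exact subset_rfl
      | succ m _ ih => exact (by rw [hT]; exact (hn1 (T m)).trans ih)
    let f : P → ℕ := fun z => if h : ∃ n, z ∈ (T n).1 \ (T (n + 1)).1 then h.choose else 0
    have hf : ∀ n z, z ∈ (T n).1 \ (T (n + 1)).1 → f z = n := by
      intro n z hz
      have hex : ∃ n, z ∈ (T n).1 \ (T (n + 1)).1 := ⟨n, hz⟩
      have hfz : f z = hex.choose := dif_pos hex
      have hch := hex.choose_spec
      rw [hfz]
      rcases lt_trichotomy hex.choose n with h | h | h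
      · exact absurd (hanti _ _ h hz.1) hch.2
      · exact h
      · exact absurd (hanti _ _ h hch.1) hz.2
    have hpos : ¬ Null ((T (G f + 1)).1 \ (T (G f + 1 + 1)).1) := by
      rw [hT (G f + 1)]
      exact hn2 _
    refine hpos (null_mono _ _ ?_ (null_gt f))
    intro z hz
    show G f < f z
    rw [hf (G f + 1) z hz]
    exact Nat.lt_succ_self _
  obtain ⟨S, hS, hatom⟩ := atom
  -- the ultrafilter
  let 𝓕 : Filter P :=
    { sets := {A | Null (S \ A)}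
      univ_sets := by
        show Null (S \ Set.univ)
        rw [Set.sdiff_univ]
        exact null_small ∅ (by simp)
      sets_of_superset := by
        intro A B hA hAB
        exact null_mono _ _ (Set.sdiff_subset_sdiff_right hAB) hA
      inter_sets := by
        intro A B hA hB
        show Null (S \ (A ∩ B))
        rw [Set.sdiff_inter]
        exact null_union _ _ hA hB }
  have hmem : ∀ A, A ∈ 𝓕 ↔ Null (S \ A) := fun A => Iff.rfl
  have hultra : ∀ A, Aᶜ ∉ 𝓕 ↔ A ∈ 𝓕 := by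
    intro A
    rw [hmem, hmem, Set.sdiff_compl]
    constructor
    · intro h
      rcases hatom (S ∩ A) Set.inter_subset_left with h1 | h1
      · exact absurd h1 h
      · rwa [Set.sdiff_self_inter] at h1
    · intro h h2
      apply hS
      have := null_union _ _ h2 h
      rwa [Set.inter_union_sdiff] at this
  let U : Ultrafilter P := Ultrafilter.ofComplNotMemIff 𝓕 hultra
  have hUmem : ∀ A, A ∈ (U : Filter P) ↔ Null (S \ A) := fun A => Iff.rfl
  have hUc : CardinalInterFilter (U : Filter P) (Order.succ κ) := by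
    constructor
    intro 𝒮 h𝒮 hall
    rw [hUmem]
    have h1 := null_iUnion 𝒮 (fun A => S \ A.1) (Order.lt_succ_iff.1 h𝒮)
      (fun A => (hUmem A.1).1 (hall A.1 A.2))
    refine null_mono _ _ ?_ h1
    rintro z ⟨hz, hz2⟩
    rw [Set.mem_sInter] at hz2
    push Not at hz2
    obtain ⟨A, hA, hzA⟩ := hz2
    exact Set.mem_iUnion.2 ⟨⟨A, hA⟩, hz, hzA⟩
  obtain ⟨a, ha⟩ := hP U hUc
  have ha' : Null (S \ {a}) := ha
  have ha2 : Null ({a} : Set P) := null_small _ (by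
    rw [Cardinal.mk_singleton]
    exact (Cardinal.one_le_aleph0).trans hκ)
  apply hS
  refine null_mono _ _ ?_ (null_union _ _ ha' ha2)
  intro z hz
  by_cases h : z = a
  · exact Or.inr h
  · exact Or.inl ⟨hz, h⟩

/-! ### The space -/

/-- Types of points. -/
inductive Ty : Type
  | base : Ty
  | hd (t : Ty) : Ty
  | lk (t : Ty) (k : ℕ) : Ty

/-- Points of a given type. -/
def Pt (Λ : Type u) : Ty → Type u
  | .base => Λ
  | .hd t => Pt Λ t → ℕ
  | .lk t _ => Pt Λ t × (Pt Λ t → ℕ)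

theorem NM.pt {κ : Cardinal.{u}} {Λ : Type u} (hκ : ℵ₀ ≤ κ) (h : NM κ Λ) :
    ∀ t : Ty, NM κ (Pt Λ t)
  | .base => h
  | .hd t => NM.fun hκ (NM.pt hκ h t)
  | .lk t _ => NM.prod (NM.pt hκ h t) (NM.fun hκ (NM.pt hκ h t))

/-- The space. -/
def Sp (Λ : Type u) : Type u := Σ t : Ty, Pt Λ t

variable {Λ : Type u}

/-- The basic open set of index `n` at the point `x`, membership defined by recursion on the type
of the point. -/
def InB (n : ℕ) (x : Sp Λ) : (t : Ty) → Pt Λ t → Prop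
  | .base, z => x = ⟨.base, z⟩
  | .hd t, f => x = ⟨.hd t, f⟩
  | .lk t k, p => x = ⟨.lk t k, p⟩ ∨ (n ≤ k ∧ InB n x t p.1) ∨
      (n ≤ k ∧ n < p.2 p.1 ∧ x = ⟨.hd t, p.2⟩)

/-- The basic open set of index `n` at the point `x`. -/
def B (n : ℕ) (x : Sp Λ) : Set (Sp Λ) := {y | InB n x y.1 y.2}

theorem InB.refl (n : ℕ) (x : Sp Λ) : InB n x x.1 x.2 := by
  obtain ⟨t, z⟩ := x
  cases t with
  | base => rfl
  | hd t => rfl
  | lk t k => exact Or.inl rfl

theorem mem_B_self (n : ℕ) (x : Sp Λ) : x ∈ B n x := InB.refl n x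

theorem InB.mono {n m : ℕ} (h : n ≤ m) (x : Sp Λ) : ∀ (t : Ty) (z : Pt Λ t),
    InB m x t z → InB n x t z
  | .base, _, hz => hz
  | .hd _, _, hz => hz
  | .lk t k, p, hz => by
    rcases hz with h1 | ⟨h1, h2⟩ | ⟨h1, h2, h3⟩
    · exact Or.inl h1
    · exact Or.inr (Or.inl ⟨h.trans h1, InB.mono h x t p.1 h2⟩)
    · exact Or.inr (Or.inr ⟨h.trans h1, h.trans_lt h2, h3⟩)

theorem B_anti {n m : ℕ} (h : n ≤ m) (x : Sp Λ) : B m x ⊆ B n x := fun y hy =>
  InB.mono h x y.1 y.2 hy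

theorem InB.trans {n : ℕ} {x y : Sp Λ} (hxy : InB n x y.1 y.2) : ∀ (t : Ty) (z : Pt Λ t),
    InB n y t z → InB n x t z
  | .base, z, hz => by
    have h : y = ⟨.base, z⟩ := hz
    subst h
    exact hxy
  | .hd t, z, hz => by
    have h : y = ⟨.hd t, z⟩ := hz
    subst h
    exact hxy
  | .lk t k, p, hz => by
    rcases hz with h1 | ⟨h1, h2⟩ | ⟨h1, h2, h3⟩
    · subst h1
      exact hxy
    · exact Or.inr (Or.inl ⟨h1, InB.trans hxy t p.1 h2⟩)
    · subst h3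
      exact Or.inr (Or.inr ⟨h1, h2, hxy⟩)

theorem B_subset {n : ℕ} {x y : Sp Λ} (hxy : y ∈ B n x) : B n y ⊆ B n x := fun z hz =>
  InB.trans hxy z.1 z.2 hz

instance instTopSp : TopologicalSpace (Sp Λ) where
  IsOpen W := ∀ x ∈ W, ∃ n, B n x ⊆ W
  isOpen_univ := fun _ _ => ⟨0, Set.subset_univ _⟩
  isOpen_inter := by
    rintro W₁ W₂ h₁ h₂ x ⟨hx₁, hx₂⟩
    obtain ⟨n₁, hn₁⟩ := h₁ x hx₁
    obtain ⟨n₂, hn₂⟩ := h₂ x hx₂
    exact ⟨max n₁ n₂, Set.subset_inter ((B_anti (le_max_left _ _) x).trans hn₁)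
      ((B_anti (le_max_right _ _) x).trans hn₂)⟩
  isOpen_sUnion := by
    rintro 𝒲 h x ⟨W, hW, hx⟩
    obtain ⟨n, hn⟩ := h W hW x hx
    exact ⟨n, hn.trans (Set.subset_sUnion_of_mem hW)⟩

theorem isOpen_iff' (W : Set (Sp Λ)) : IsOpen W ↔ ∀ x ∈ W, ∃ n, B n x ⊆ W := Iff.rfl

theorem isOpen_B (n : ℕ) (x : Sp Λ) : IsOpen (B n x) := fun _ hy => ⟨n, B_subset hy⟩

/-- A bound attached to a type. -/
def kt : Ty → ℕ
  | .base => 0
  | .hd _ => 0
  | .lk _ k => k + 1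

theorem InB.eq_of_kt {n : ℕ} {x : Sp Λ} : ∀ (t : Ty) (z : Pt Λ t), kt t ≤ n →
    InB n x t z → x = ⟨t, z⟩
  | .base, _, _, hz => hz
  | .hd _, _, _, hz => hz
  | .lk t k, p, hk, hz => by
    have hk' : k + 1 ≤ n := hk
    rcases hz with h1 | ⟨h1, _⟩ | ⟨h1, _, _⟩
    · exact h1
    · omega
    · omega

/-- The separation condition of a point `x` from a point `y`. -/
def Sep (n : ℕ) (x y : Sp Λ) : Prop :=
  ∀ (t : Ty) (f : Pt Λ t → ℕ), x = ⟨.hd t, f⟩ → kt t ≤ n ∧ ∀ z : Pt Λ t, y = ⟨t, z⟩ → f z ≤ n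

theorem exists_sep (x y : Sp Λ) : ∃ N, ∀ n, N ≤ n → Sep n x y := by
  classical
  obtain ⟨s, g⟩ := x
  cases s with
  | base => exact ⟨0, fun n _ t f h => by cases h⟩
  | lk s k => exact ⟨0, fun n _ t f h => by cases h⟩
  | hd s =>
    by_cases hy : ∃ z : Pt Λ s, y = ⟨s, z⟩
    · obtain ⟨z₀, hz₀⟩ := hy
      refine ⟨max (kt s) ((g : Pt Λ s → ℕ) z₀), fun n hn t f h => ?_⟩
      cases h
      refine ⟨(le_max_left _ _).trans hn, fun z hz => ?_⟩
      rw [hz₀] at hz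
      cases hz
      exact (le_max_right _ _).trans hn
    · refine ⟨kt s, fun n hn t f h => ?_⟩
      cases h
      exact ⟨hn, fun z hz => absurd ⟨z, hz⟩ hy⟩

theorem disj {n : ℕ} {x y : Sp Λ} (hne : x ≠ y) (hx : kt x.1 ≤ n) (hy : kt y.1 ≤ n)
    (hxy : Sep n x y) (hyx : Sep n y x) : ∀ (t : Ty) (z : Pt Λ t),
    InB n x t z → InB n y t z → False
  | .base, _, h1, h2 => hne (Eq.trans h1 (Eq.symm h2))
  | .hd _, _, h1, h2 => hne (Eq.trans h1 (Eq.symm h2))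
  | .lk t k, p, h1, h2 => by
    rcases h1 with a1 | ⟨a1, a2⟩ | ⟨a1, a2, a3⟩
    · subst a1
      have hx' : k + 1 ≤ n := hx
      rcases h2 with b1 | ⟨b1, _⟩ | ⟨b1, _, _⟩
      · exact hne b1.symm
      · omega
      · omega
    · rcases h2 with b1 | ⟨b1, b2⟩ | ⟨b1, b2, b3⟩
      · subst b1
        have hy' : k + 1 ≤ n := hy
        omega
      · exact disj hne hx hy hxy hyx t p.1 a2 b2
      · obtain ⟨c1, c2⟩ := hyx t p.2 b3
        have e := InB.eq_of_kt t p.1 c1 a2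
        have := c2 p.1 e
        omega
    · rcases h2 with b1 | ⟨b1, b2⟩ | ⟨b1, b2, b3⟩
      · subst b1
        have hy' : k + 1 ≤ n := hy
        omega
      · obtain ⟨c1, c2⟩ := hxy t p.2 a3
        have e := InB.eq_of_kt t p.1 c1 b2
        have := c2 p.1 e
        omega
      · exact hne (a3.trans b3.symm)

instance instT2Sp : T2Space (Sp Λ) where
  t2 := by
    intro x y hne
    obtain ⟨N₁, h₁⟩ := exists_sep x y
    obtain ⟨N₂, h₂⟩ := exists_sep y x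
    let n := max (max (kt x.1) (kt y.1)) (max N₁ N₂)
    have hx : kt x.1 ≤ n := (le_max_left _ _).trans (le_max_left _ _)
    have hy : kt y.1 ≤ n := (le_max_right _ _).trans (le_max_left _ _)
    refine ⟨B n x, B n y, isOpen_B n x, isOpen_B n y, mem_B_self n x, mem_B_self n y, ?_⟩
    rw [Set.disjoint_left]
    intro w hw1 hw2
    exact disj hne hx hy (h₁ n ((le_max_left _ _).trans (le_max_right _ _)))
      (h₂ n ((le_max_right _ _).trans (le_max_right _ _))) w.1 w.2 hw1 hw2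

theorem mem_closure_handler (t : Ty) (f : Pt Λ t → ℕ) (n : ℕ) (z : Pt Λ t) (h : n < f z) :
    (⟨t, z⟩ : Sp Λ) ∈ closure (B n (⟨.hd t, f⟩ : Sp Λ)) := by
  have key : ∀ W : Set (Sp Λ), IsOpen W → (⟨t, z⟩ : Sp Λ) ∈ W →
      (W ∩ B n (⟨.hd t, f⟩ : Sp Λ)).Nonempty := by
    intro W hW hz
    obtain ⟨m, hm⟩ := hW _ hz
    refine ⟨⟨.lk t (max m n), (z, f)⟩, hm ?_, ?_⟩
    · exact Or.inr (Or.inl ⟨le_max_left _ _, InB.refl m _⟩)
    · exact Or.inr (Or.inr ⟨le_max_right _ _, h, rfl⟩)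
  exact (mem_closure_iff (X := Sp Λ)).2 key

theorem card_Ty : #Ty ≤ ℵ₀ := by
  have : Function.Injective (fun t : Ty => (Ty.rec (motive := fun _ => List ℕ) [0]
      (fun _ l => 1 :: l) (fun _ k l => (k + 2) :: l) t : List ℕ)) := by
    intro a
    induction a with
    | base =>
      intro b h
      cases b <;> simp_all
    | hd a ih =>
      intro b h
      cases b with
      | base => simp at h
      | hd b =>
        simp only [List.cons.injEq, true_and] at h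
        rw [ih h]
      | lk b k => simp at h
    | lk a k ih =>
      intro b h
      cases b with
      | base => simp at h
      | hd b => simp at h
      | lk b k' =>
        simp only [List.cons.injEq, Nat.add_right_cancel_iff] at h
        rw [ih h.2, h.1]
  have : Countable Ty := this.countable
  exact Cardinal.mk_le_aleph0

/-- The space is almost Lindelof at level `κ`. -/
theorem aL {κ : Cardinal.{u}} (hκ : ℵ₀ ≤ κ) (hΛ : NM κ Λ) (𝒰 : Set (Set (Sp Λ)))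
    (h𝒰 : ∀ U ∈ 𝒰, IsOpen U) (hcov : ⋃₀ 𝒰 = Set.univ) :
    ∃ 𝒱 ⊆ 𝒰, #𝒱 ≤ κ ∧ ∀ x, ∃ V ∈ 𝒱, x ∈ closure V := by
  classical
  have hU : ∀ x : Sp Λ, ∃ U ∈ 𝒰, x ∈ U := by
    intro x
    have : x ∈ ⋃₀ 𝒰 := hcov ▸ Set.mem_univ x
    exact this
  choose U hU1 hU2 using hU
  have hn : ∀ x : Sp Λ, ∃ n, B n x ⊆ U x := fun x => h𝒰 _ (hU1 x) x (hU2 x)
  choose g hg using hn
  have hkey : ∀ t : Ty, ∃ F : Set (Pt Λ t → ℕ), #F ≤ κ ∧
      #{z : Pt Λ t | ∀ f ∈ F, f z ≤ g ⟨.hd t, f⟩} ≤ κ := fun t =>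
    key hκ (NM.pt hκ hΛ t) (fun f => g ⟨.hd t, f⟩)
  choose F hF1 hF2 using hkey
  let A : Set (Sp Λ) := (⋃ t : ULift.{u} Ty, (fun f => (⟨.hd t.down, f⟩ : Sp Λ)) '' F t.down) ∪
    (⋃ t : ULift.{u} Ty, (fun z => (⟨t.down, z⟩ : Sp Λ)) ''
      {z : Pt Λ t.down | ∀ f ∈ F t.down, f z ≤ g ⟨.hd t.down, f⟩})
  have hTy : #(ULift.{u} Ty) ≤ κ := by
    rw [Cardinal.mk_uLift]
    have := Cardinal.lift_le.{u}.2 card_Ty
    rw [Cardinal.lift_aleph0] at this
    exact this.trans hκ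
  have hA : #A ≤ κ := by
    refine (Cardinal.mk_union_le _ _).trans ?_
    have hb : ∀ S : ULift.{u} Ty → Set (Sp Λ), (∀ t, #(S t) ≤ κ) → #(⋃ t, S t) ≤ κ := by
      intro S hS
      refine (Cardinal.mk_iUnion_le _).trans ?_
      calc _ ≤ κ * κ := mul_le_mul' hTy (ciSup_le' hS)
        _ = κ := Cardinal.mul_eq_self hκ
    calc _ ≤ κ + κ := add_le_add (hb _ fun t => Cardinal.mk_image_le.trans (hF1 _))
            (hb _ fun t => Cardinal.mk_image_le.trans (hF2 _))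
      _ = κ := Cardinal.add_eq_self hκ
  refine ⟨U '' A, ?_, Cardinal.mk_image_le.trans hA, ?_⟩
  · rintro _ ⟨x, _, rfl⟩
    exact hU1 x
  · rintro ⟨t, z⟩
    by_cases hz : ∀ f ∈ F t, f z ≤ g ⟨.hd t, f⟩
    · refine ⟨U ⟨t, z⟩, Set.mem_image_of_mem _ ?_, subset_closure (hU2 _)⟩
      exact Or.inr (Set.mem_iUnion.2 ⟨⟨t⟩, z, hz, rfl⟩)
    · push Not at hz
      obtain ⟨f, hf, hfz⟩ := hz
      refine ⟨U ⟨.hd t, f⟩, Set.mem_image_of_mem _ ?_, ?_⟩
      · exact Or.inl (Set.mem_iUnion.2 ⟨⟨t⟩, f, hf, rfl⟩)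
      · exact closure_mono (hg _) (mem_closure_handler t f _ z hfz)

theorem pwLProp_Sp {κ : Cardinal.{u}} (hκ : ℵ₀ ≤ κ) (hΛ : NM κ Λ) : PwLProp (Sp Λ) κ := by
  intro 𝒰 h𝒰 hcov I D hD
  obtain ⟨𝒱, h1, h2, h3⟩ := aL hκ hΛ 𝒰 h𝒰 hcov
  refine ⟨fun i => 𝒱 ∩ D i, fun i => Set.inter_subset_right, fun i =>
    (Cardinal.mk_le_mk_of_subset Set.inter_subset_left).trans h2, ?_⟩
  rw [Set.eq_univ_iff_forall]
  intro x
  obtain ⟨V, hV, hx⟩ := h3 x
  have hVU : V ∈ ⋃ i, D i := hD ▸ h1 hV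
  obtain ⟨i, hi⟩ := Set.mem_iUnion.1 hVU
  have hVi : V ∈ 𝒱 ∩ D i := ⟨hV, hi⟩
  exact Set.mem_iUnion.2 ⟨i, closure_mono (Set.subset_sUnion_of_mem hVi) hx⟩

theorem pwL_Sp_le {κ : Cardinal.{u}} (hκ : ℵ₀ ≤ κ) (hΛ : NM κ Λ) : pwL (Sp Λ) ≤ κ := by
  have h : κ ∈ {κ : Cardinal.{u} | ℵ₀ ≤ κ ∧ PwLProp (Sp Λ) κ} := ⟨hκ, pwLProp_Sp hκ hΛ⟩
  exact csInf_le' h

theorem charAt_Sp_le (x : Sp Λ) : charAt x ≤ ℵ₀ := by
  have h : #(Set.range (fun n : ULift.{u} ℕ => B n.down x)) ∈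
      {κ : Cardinal.{u} | ∃ B : Set (Set (Sp Λ)), (∀ U ∈ B, IsOpen U ∧ x ∈ U) ∧
        (∀ W : Set (Sp Λ), IsOpen W → x ∈ W → ∃ U ∈ B, U ⊆ W) ∧ #B = κ} := by
    refine ⟨Set.range (fun n : ULift.{u} ℕ => B n.down x), ?_, ?_, rfl⟩
    · rintro _ ⟨n, rfl⟩
      exact ⟨isOpen_B _ x, mem_B_self _ x⟩
    · intro W hW hx
      obtain ⟨n, hn⟩ := hW x hx
      exact ⟨_, ⟨⟨n⟩, rfl⟩, hn⟩
  refine (csInf_le' h).trans ?_
  exact Cardinal.mk_range_le.trans (by simp)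

theorem character_Sp : character (Sp Λ) = ℵ₀ :=
  le_antisymm (max_le le_rfl (ciSup_le' charAt_Sp_le)) (le_max_left _ _)

theorem aleph0_le_pwL (X : Type u) [TopologicalSpace X] : ℵ₀ ≤ pwL X := by
  have hne : Set.Nonempty {κ : Cardinal.{u} | ℵ₀ ≤ κ ∧ PwLProp X κ} := by
    refine ⟨max ℵ₀ #(Set X), le_max_left _ _, ?_⟩
    intro 𝒰 h𝒰 hcov I D hD
    refine ⟨D, fun i => subset_rfl, fun i =>
      (Cardinal.mk_set_le _).trans (le_max_right _ _), ?_⟩
    rw [Set.eq_univ_iff_forall]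
    intro x
    have hx : x ∈ ⋃₀ 𝒰 := hcov ▸ Set.mem_univ x
    obtain ⟨U, hU, hxU⟩ := hx
    have : U ∈ ⋃ i, D i := hD ▸ hU
    obtain ⟨i, hi⟩ := Set.mem_iUnion.1 this
    exact Set.mem_iUnion.2 ⟨i, subset_closure ⟨U, hi, hxU⟩⟩
  exact le_csInf hne fun κ h => h.1

theorem le_card_Sp : #Λ ≤ #(Sp Λ) :=
  Cardinal.mk_le_of_injective (f := fun z : Λ => (⟨.base, z⟩ : Sp Λ)) (by
    intro a b h
    cases h
    rfl)

end Pool.Agent.H66
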